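import Pool.Agent.H539R3.IEP.Undec
import Pool.Agent.H539R3.IEP.Dec

/-!
# A primitive recursive extension of GL with a complete interpolant existence problem

There is a normal modal logic `L` above `GL` with a primitive recursive membership problem such that
the interpolant existence problem of `L` is recursively enumerable (this is so for all decidable
logics, `re_iep`) and as hard as any recursively enumerable problem, already for the implications
`φ → ψ` which belong to `L`, where `φ` has the only variable `p_0` and `ψ` has the only variable
`p_1` (so that one asks for a variable free interpolant of a valid implication).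

The logic is the logic `Lg` of `Pool/Agent/H539R3/IEP`, the logic of certain finite frames (starting
files of the repository, where it is proved that the logic is decidable and that its interpolant
existence problem is undecidable). New here: the upper bound, the completeness, the restriction to
valid implications without common variables, and the primitive recursive bound for the logic.
-/

set_option autoImplicit false
set_option linter.all false

namespace Pool.Agent.Results.MP_400b40_lc.CompleteIEP

open H539R3.IEP H539R3.IEP.Form

/-! ### Occurrence of variables is primitive recursive -/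

open Classical in
/-- `p_i` occurs in the formula with number `n`. -/
noncomputable def occ (i n : ℕ) : Bool := decide (i ∈ (decode n).vars)

/-- the recursion for `occ` -/
def occStep (i : ℕ) (l : List Bool) : Prop :=
  ¬ (l.length = 0) ∧ ((l.length % 3 = 1 ∧ l.length / 3 = i) ∨ (¬ (l.length % 3 = 1) ∧
    ((l.length % 3 = 2 ∧ (l.getD (Nat.unpair (l.length / 3)).1 false = true ∨
        l.getD (Nat.unpair (l.length / 3)).2 false = true)) ∨
      (¬ (l.length % 3 = 2) ∧ l.getD (l.length / 3 - 1) false = true))))

theorem occ_iff (i n : ℕ) : occ i n = true ↔ i ∈ (decode n).vars := by simp [occ]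

theorem occStep_iff (i k : ℕ) : occStep i ((List.range k).map (occ i)) ↔ occ i k = true := by
  have hl : ((List.range k).map (occ i)).length = k := by simp
  have hg : ∀ c, c < k →
      (((List.range k).map (occ i)).getD c false = true ↔ i ∈ (decode c).vars) := by
    intro c hc
    rw [← occ_iff, List.getD_eq_getElem?_getD]
    simp [hc]
  unfold occStep
  rw [hl, occ_iff]
  generalize (List.range k).map (occ i) = l at hg
  rcases Nat.eq_zero_or_pos k with h0 | h0
  · subst h0
    rw [decode_zero]
    simp [vars]
  · obtain ⟨n, hn | hn | hn⟩ : ∃ n, k = 3 * n + 1 ∨ k = 3 * n + 2 ∨ k = 3 * n + 3 :=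
      ⟨(k - 1) / 3, by omega⟩
    · have e0 : k % 3 = 1 := by omega
      have e1 : k / 3 = n := by omega
      have e : (decode k).vars = {n} := by rw [hn, decode_var]; rfl
      have e2 : (i ∈ ({n} : Set ℕ)) ↔ n = i := by
        rw [Set.mem_singleton_iff]
        exact eq_comm
      rw [e, e0, e1, e2]
      simp [h0.ne']
    · have e0 : k % 3 = 2 := by omega
      have e1 : k / 3 = n := by omega
      have h1 := Nat.unpair_left_le n
      have h2 := Nat.unpair_right_le n
      have e : (decode k).vars =
          (decode (Nat.unpair n).1).vars ∪ (decode (Nat.unpair n).2).vars := by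
        rw [hn, decode_imp]; rfl
      rw [e, e0, e1, hg _ (by omega), hg _ (by omega)]
      simp [h0.ne']
    · have e0 : k % 3 = 0 := by omega
      have e1 : k / 3 - 1 = n := by omega
      have e : (decode k).vars = (decode n).vars := by rw [hn, decode_box]; rfl
      have h3 := hg n (by omega)
      rw [e, e0, e1, ← h3]
      simp [h0.ne']

theorem pp_occStep : PrimrecPred fun q : ℕ × List Bool => occStep q.1 q.2 := by
  have hl : Primrec fun q : ℕ × List Bool => q.2 := Primrec.snd
  have hk : Primrec fun q : ℕ × List Bool => q.2.length := Primrec.list_length.comp hl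
  have hm3 : Primrec fun q : ℕ × List Bool => q.2.length % 3 :=
    Primrec.nat_mod.comp hk (Primrec.const 3)
  have hd3 : Primrec fun q : ℕ × List Bool => q.2.length / 3 :=
    Primrec.nat_div.comp hk (Primrec.const 3)
  have hun : Primrec fun q : ℕ × List Bool => Nat.unpair (q.2.length / 3) :=
    Primrec.unpair.comp hd3
  have h1 := pp_true ((Primrec.list_getD false).comp hl (Primrec.fst.comp hun))
  have h2 := pp_true ((Primrec.list_getD false).comp hl (Primrec.snd.comp hun))
  have h3 := pp_true ((Primrec.list_getD false).comp hl
    (Primrec.nat_sub.comp hd3 (Primrec.const 1)))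
  exact (pp_eq hk (Primrec.const 0)).not.and
    (pp_ite (pp_eq hm3 (Primrec.const 1)) (pp_eq hd3 Primrec.fst)
      (pp_ite (pp_eq hm3 (Primrec.const 2)) (h1.or h2) h3))

open Classical in
theorem primrec_occ : Primrec₂ occ := by
  refine Primrec.nat_strong_rec occ (g := fun i l => some (decide (occStep i l))) ?_ ?_
  · exact Primrec.option_some.comp (pp_occStep.decide)
  · intro i k
    congr 1
    rw [Bool.eq_iff_iff, decide_eq_true_iff]
    exact occStep_iff i k

theorem le_code_of_mem (a : Form) : ∀ i, i ∈ a.vars → i ≤ code a := by
  induction a with
  | var j =>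
    intro i hi
    simp only [vars, Set.mem_singleton_iff] at hi
    simp only [code]
    omega
  | bot => intro i hi; exact absurd hi (by simp [vars])
  | imp a b iha ihb =>
    intro i hi
    have h1 := Nat.left_le_pair (code a) (code b)
    have h2 := Nat.right_le_pair (code a) (code b)
    simp only [code]
    rcases hi with hi | hi
    · have := iha i hi; omega
    · have := ihb i hi; omega
  | box a ih =>
    intro i hi
    have := ih i hi
    simp only [code]
    omega

/-- the condition on the variables of an interpolant, in terms of numbers -/
def VarC (q : (Form × Form) × ℕ) : Prop :=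
  ∀ i, i < q.2 + 1 → (occ i q.2 = true →
    (occ i (code q.1.1) = true ∧ occ i (code q.1.2) = true))

theorem varC_iff (a b : Form) (n : ℕ) :
    VarC ((a, b), n) ↔ (decode n).vars ⊆ a.vars ∩ b.vars := by
  unfold VarC
  constructor
  · intro h i hi
    have h1 : i ≤ n := by
      have := le_code_of_mem _ i hi
      rwa [code_decode] at this
    have h2 := h i (by simp only; omega) ((occ_iff _ _).2 hi)
    simp only [occ_iff, decode_code] at h2
    exact h2
  · intro h i _ hi
    rw [occ_iff] at hi
    have := h hi
    simp only [occ_iff, decode_code]
    exact this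

theorem primrec_code : Primrec code := Primrec.of_equiv (e := equivNat)

theorem primrec_form {α : Type} [Primcodable α] {f : α → Form}
    (h : Primrec fun a => code (f a)) : Primrec f :=
  (Primrec.of_equiv_iff equivNat).1 h

theorem pp_varC : PrimrecPred VarC := by
  unfold VarC
  refine pp_forall (α := (Form × Form) × ℕ) (f := fun q => q.2 + 1)
    (P := fun i q => (occ i q.2 = true →
      (occ i (code q.1.1) = true ∧ occ i (code q.1.2) = true)))
    (Primrec.succ.comp Primrec.snd) ?_
  have hi : Primrec fun r : ℕ × ((Form × Form) × ℕ) => r.1 := Primrec.fst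
  have hn : Primrec fun r : ℕ × ((Form × Form) × ℕ) => r.2.2 := Primrec.snd.comp Primrec.snd
  have ha : Primrec fun r : ℕ × ((Form × Form) × ℕ) => code r.2.1.1 :=
    primrec_code.comp (Primrec.fst.comp (Primrec.fst.comp Primrec.snd))
  have hb : Primrec fun r : ℕ × ((Form × Form) × ℕ) => code r.2.1.2 :=
    primrec_code.comp (Primrec.snd.comp (Primrec.fst.comp Primrec.snd))
  exact pp_imp (pp_true (primrec_occ.comp hi hn))
    ((pp_true (primrec_occ.comp hi ha)).and (pp_true (primrec_occ.comp hi hb)))

/-- The interpolant existence problem of a decidable logic is recursively enumerable. -/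
theorem re_iep (L : Set Form) (hL : DecidableLogic L) :
    REPred fun p : Form × Form => HasInterpolant L p.1 p.2 := by
  classical
  obtain ⟨f, hf, hf2⟩ := ComputablePred.computable_iff.1 hL
  have hf3 : ∀ a, a ∈ L ↔ f a = true := fun a => by
    have := congrFun hf2 a
    exact iff_of_eq this
  have hdec : Primrec fun n : ℕ => decode n := by
    refine primrec_form ?_
    exact Primrec.id.of_eq fun n => (code_decode n).symm
  have himp : Primrec₂ fun a b : Form => imp a b := by
    refine primrec_form (α := Form × Form) (f := fun q => imp q.1 q.2) ?_
    exact primrec_nimp.comp (primrec_code.comp Primrec.fst) (primrec_code.comp Primrec.snd)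
  let B : (Form × Form) → ℕ → Bool := fun p n =>
    decide (VarC (p, n)) && (f (imp p.1 (decode n)) && f (imp (decode n) p.2))
  have hB : Computable₂ B := by
    have h1 : Computable fun q : (Form × Form) × ℕ => decide (VarC q) :=
      pp_varC.decide.to_comp
    have hd : Primrec fun q : (Form × Form) × ℕ => decode q.2 := hdec.comp Primrec.snd
    have h2 : Computable fun q : (Form × Form) × ℕ => f (imp q.1.1 (decode q.2)) :=
      hf.comp (himp.comp (Primrec.fst.comp Primrec.fst) hd).to_comp
    have h3 : Computable fun q : (Form × Form) × ℕ => f (imp (decode q.2) q.1.2) :=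
      hf.comp (himp.comp hd (Primrec.snd.comp Primrec.fst)).to_comp
    have hand : Computable₂ (fun a b : Bool => a && b) := Primrec.and.to_comp
    exact hand.comp h1 (hand.comp h2 h3)
  have hr : Partrec fun p : Form × Form => Nat.rfind (fun n => (Part.some (B p n) : Part Bool)) :=
    Partrec.rfind hB.partrec₂
  refine hr.dom_re.of_eq fun p => ?_
  have hdom : (Nat.rfind (fun n => (Part.some (B p n) : Part Bool))).Dom ↔
      ∃ n, true ∈ (Part.some (B p n) : Part Bool) ∧
        ∀ {m : ℕ}, m < n → (Part.some (B p m) : Part Bool).Dom := Iff.rfl
  refine hdom.trans ?_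
  have hBn : ∀ n, B p n = true ↔ ((decode n).vars ⊆ p.1.vars ∩ p.2.vars ∧
      imp p.1 (decode n) ∈ L ∧ imp (decode n) p.2 ∈ L) := by
    intro n
    simp only [B, Bool.and_eq_true, decide_eq_true_eq]
    rw [← hf3, ← hf3, ← varC_iff p.1 p.2 n]
  constructor
  · rintro ⟨n, hn, -⟩
    have hn' : B p n = true := by
      rw [Part.mem_some_iff] at hn
      exact hn.symm
    exact ⟨decode n, (hBn n).1 hn'⟩
  · rintro ⟨c, hc⟩
    refine ⟨code c, ?_, fun _ => trivial⟩
    rw [Part.mem_some_iff]
    refine ((hBn (code c)).2 ?_).symm
    rw [decode_code]
    exact hc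

/-- Membership in the logic is primitive recursive. -/
theorem primrec_Lg : PrimrecPred fun a : Form => a ∈ Lg := by
  have h : PrimrecPred fun a : Form => BLg (code a) := pp_BLg.comp primrec_code
  exact h.of_eq fun a => (mem_Lg_iff a).symm

/-- The implications of the reduction are valid. -/
theorem valid (e : ℕ) : imp (Phi (3 * e) 0) (neg (Phi (3 * e + 1) 1)) ∈ Lg := by
  intro m N hD V h1 h2
  have e1 := (sat_Phi (D_le hD) V _ _ h1).1
  have e2 := (sat_Phi (D_le hD) V _ _ h2).1
  omega

/-- Every recursively enumerable problem is reducible to the halting problem. -/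
theorem halting_complete {α : Type} [Primcodable α] (S : α → Prop) (hS : REPred S) :
    ∃ t : α → Nat.Partrec.Code, Primrec t ∧ ∀ a, ((t a).eval 0).Dom ↔ S a := by
  have h1 : Nat.Partrec fun n => Part.bind (Encodable.decode (α := α) n) fun a =>
      (Part.assert (S a) fun _ => Part.some ()).map Encodable.encode := hS
  obtain ⟨c, hc⟩ := Nat.Partrec.Code.exists_code.1 h1
  refine ⟨fun a => Nat.Partrec.Code.curry (Nat.Partrec.Code.comp c Nat.Partrec.Code.left)
    (Encodable.encode a), ?_, fun a => ?_⟩
  · exact Nat.Partrec.Code.primrec₂_curry.comp (Primrec.const _) Primrec.encode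
  · rw [Nat.Partrec.Code.eval_curry]
    have e : Nat.Partrec.Code.eval (Nat.Partrec.Code.comp c Nat.Partrec.Code.left)
        (Nat.pair (Encodable.encode a) 0) = Nat.Partrec.Code.eval c (Encodable.encode a) := by
      first
        | (simp [Nat.Partrec.Code.eval]; done)
        | (simp [Nat.Partrec.Code.eval]; exact Part.bind_some (Encodable.encode a) _)
    rw [e, hc]
    simp [Encodable.encodek, Part.assert]

/-- **A modal logic above `GL` with a complete interpolant existence problem.** There is a normal
modal logic `L` containing `GL` with primitive recursive membership problem (in particular `L` is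
decidable) whose interpolant existence problem is undecidable, and even complete for the
recursively enumerable problems: it is recursively enumerable, and every recursively enumerable
problem `S` is reduced by primitive recursive functions `f`, `g` to the interpolant existence
problem for implications `f a → g a` which belong to `L` and where `p_0` is the only variable of
`f a` and `p_1` is the only variable of `g a`. -/
theorem result :
    ∃ L : Set Form, Normal L ∧ LogicGL ⊆ L ∧ (PrimrecPred fun a : Form => a ∈ L) ∧
      DecidableLogic L ∧ ¬ DecidableIEP L ∧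
      (REPred fun p : Form × Form => HasInterpolant L p.1 p.2) ∧
      ∀ (α : Type) [Primcodable α] (S : α → Prop), REPred S →
        ∃ f g : α → Form, Primrec f ∧ Primrec g ∧ ∀ a : α,
          (f a).vars = {0} ∧ (g a).vars = {1} ∧ imp (f a) (g a) ∈ L ∧
          (HasInterpolant L (f a) (g a) ↔ S a) := by
  refine ⟨Lg, Lg_normal, GL_subset, primrec_Lg, decidableLogic_Lg, not_decidableIEP,
    re_iep Lg decidableLogic_Lg, ?_⟩
  intro α _ S hS
  obtain ⟨t, ht, ht2⟩ := halting_complete S hS
  have he : Primrec fun a : α => 3 * Encodable.encode (t a) :=
    Primrec.nat_mul.comp (Primrec.const 3) (Primrec.encode.comp ht)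
  refine ⟨fun a => Phi (3 * Encodable.encode (t a)) 0,
    fun a => neg (Phi (3 * Encodable.encode (t a) + 1) 1), ?_, ?_, fun a => ⟨?_, ?_, ?_, ?_⟩⟩
  · refine primrec_form (((primrec_PhiN 0).comp he).of_eq fun c => ?_)
    rw [code_Phi]
  · refine primrec_form
      ((primrec_nneg.comp ((primrec_PhiN 1).comp (Primrec.succ.comp he))).of_eq fun c => ?_)
    rw [code_neg, code_Phi]
  · exact vars_Phi _ _
  · simp only [vars_neg]
    exact vars_Phi _ _
  · exact valid _
  · exact (hasInterpolant_iff _).trans ((exists_halt_iff (t a)).trans (ht2 a))

end Pool.Agent.Results.MP_400b40_lc.CompleteIEP
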